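import Pool.Agent.helper96.PP2.SpecB

/-!
# Row pg:LCM (MP_655a6f_al)

The groups of the descending sequence are stable under multiplication by the values of the
trace form.
-/

namespace Pool.Agent.PP2

open Topology Matrix

theorem LCM_Br_smul {R : Type} [CommRing R] (c : R) (U V : M2 R) :
    c • Br U V = Br U (c • V) := by
  simp only [Br, Matrix.mul_smul, Matrix.smul_mul, smul_sub]

theorem LCM_row (hLBF : LBF_stmt) : LCM_stmt := by
  intro p R _ _ _ _ _ _ J hp h2 hS Γ hΓ n
  induction n with
  | zero => exact hLBF p R J hp h2 hS Γ hΓ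
  | succ n ih =>
    intro X hX Y hY Z hZ
    have hc : Continuous (fun Z : M2 R => Bf X Y • Z) := continuous_const_smul _
    have hcl : IsClosed (Lc Γ (n + 1) : Set (M2 R)) :=
      AddSubgroup.isClosed_topologicalClosure _
    let S : AddSubgroup (M2 R) :=
      (Lc Γ (n + 1)).comap (DistribSMul.toAddMonoidHom (M2 R) (Bf X Y))
    have hSc : IsClosed (S : Set (M2 R)) := hcl.preimage hc
    have hle : (AddSubgroup.closure
        {Z | ∃ X ∈ LL Γ, ∃ Y ∈ Lc Γ n, Z = Br X Y}).topologicalClosure ≤ S := by
      refine AddSubgroup.topologicalClosure_minimal _ ?_ hSc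
      rw [AddSubgroup.closure_le]
      rintro W ⟨U, hU, V, hV, rfl⟩
      change Bf X Y • Br U V ∈ Lc Γ (n + 1)
      rw [LCM_Br_smul]
      exact AddSubgroup.le_topologicalClosure _
        (AddSubgroup.subset_closure ⟨U, hU, Bf X Y • V, ih X hX Y hY V hV, rfl⟩)
    exact hle hZ

end Pool.Agent.PP2
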